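import Pool.Agent.Helper9_CG.Stmt

/-!
# CG, module PICK: expected number of components of the graph of the picks
-/

set_option autoImplicit false

namespace Pool.Agent.CG.H81

open SimpleGraph Finset Pool.Agent.LAG Pool.Agent.LLG
open scoped Classical

variable {X : Type} [Fintype X]

/-- A product of nonnegative numbers with mean at most one is at most one. -/
theorem prod_le_one' {ι : Type} (s : Finset ι) (z : ι → ℝ) (hz : ∀ u ∈ s, 0 ≤ z u)
    (h : ∑ u ∈ s, z u ≤ s.card) : ∏ u ∈ s, z u ≤ 1 := by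
  have h1 : ∏ u ∈ s, z u ≤ ∏ u ∈ s, Real.exp (z u - 1) :=
    Finset.prod_le_prod hz (fun u _ => by have := Real.add_one_le_exp (z u - 1); linarith)
  have h2 : ∏ u ∈ s, Real.exp (z u - 1) = Real.exp (∑ u ∈ s, (z u - 1)) := (Real.exp_sum _ _).symm
  have h3 : ∑ u ∈ s, (z u - 1) ≤ 0 := by
    rw [Finset.sum_sub_distrib]
    simp only [Finset.sum_const, nsmul_eq_mul, mul_one]
    linarith
  rw [h2] at h1
  exact h1.trans (Real.exp_le_one_iff.2 h3)

/-- The number of ordered adjacent pairs inside of `K` is the sum of the inner degrees. -/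
theorem ins_eq (Γ : SimpleGraph X) (K : Finset X) :
    ins Γ (K : Set X) = ∑ u ∈ K, dg Γ (K : Set X) u := by
  unfold ins dg
  rw [Set.ncard_eq_toFinset_card']
  rw [Finset.card_eq_sum_card_fiberwise (f := Prod.fst) (t := K)]
  · refine Finset.sum_congr rfl fun u hu => ?_
    rw [Set.ncard_eq_toFinset_card']
    refine Finset.card_bij' (fun e _ => e.2) (fun y _ => (u, y)) ?_ ?_ ?_ ?_
    · intro e he
      simp only [Finset.mem_filter, Set.mem_toFinset, Set.mem_ofPred_eq] at he ⊢
      exact ⟨he.1.2.1, he.2 ▸ he.1.2.2⟩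
    · intro y hy
      simp only [Finset.mem_filter, Set.mem_toFinset, Set.mem_ofPred_eq] at hy ⊢
      exact ⟨⟨Finset.mem_coe.2 hu, hy.1, hy.2⟩, trivial⟩
    · intro e he
      simp only [Finset.mem_filter] at he
      exact Prod.ext he.2.symm rfl
    · intro y hy
      rfl
  · intro e he
    simp only [Finset.mem_coe, Set.mem_toFinset, Set.mem_ofPred_eq] at he ⊢
    exact he.1

/-- All the picks of `K` are in `K`. -/
def Clo {Γ : SimpleGraph X} {c : ℕ} (K : Finset X) (π : Pk Γ c) : Prop :=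
  ∀ u ∈ K, ∀ i, (π u i : X) ∈ K

theorem card_pk (Γ : SimpleGraph X) (c : ℕ) [Fintype (Pk Γ c)] :
    Fintype.card (Pk Γ c) = ∏ u : X, (Γ.neighborSet u).ncard ^ c := by
  rw [← Nat.card_eq_fintype_card, Nat.card_pi]
  refine Finset.prod_congr rfl fun u _ => ?_
  rw [Nat.card_pi]
  simp [Set.ncard_def, Set.encard, Nat.card]

theorem card_clo (Γ : SimpleGraph X) (c : ℕ) [Fintype (Pk Γ c)] (K : Finset X) :
    (Finset.univ.filter (fun π : Pk Γ c => Clo K π)).card =
      ∏ u : X, if u ∈ K then (dg Γ (K : Set X) u) ^ c else (Γ.neighborSet u).ncard ^ c := by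
  have e : (Finset.univ.filter (fun π : Pk Γ c => Clo K π)) =
      Fintype.piFinset (fun u : X => if u ∈ K then
        Fintype.piFinset (fun _ : Fin c => (Finset.univ.filter
          (fun y : Γ.neighborSet u => (y : X) ∈ K))) else Finset.univ) := by
    ext π
    rw [Finset.mem_filter, Fintype.mem_piFinset]
    constructor
    · rintro ⟨-, h⟩ u
      by_cases hu : u ∈ K
      · rw [if_pos hu]
        simp only [Fintype.mem_piFinset, Finset.mem_filter, Finset.mem_univ, true_and]
        exact h u hu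
      · rw [if_neg hu]
        exact Finset.mem_univ _
    · intro h
      refine ⟨Finset.mem_univ _, fun u hu i => ?_⟩
      have := h u
      rw [if_pos hu] at this
      simp only [Fintype.mem_piFinset, Finset.mem_filter, Finset.mem_univ, true_and] at this
      exact this i
  have e2 := congrArg Finset.card e
  rw [Fintype.card_piFinset] at e2
  rw [e2]
  refine Finset.prod_congr rfl fun u _ => ?_
  by_cases hu : u ∈ K
  · rw [if_pos hu, if_pos hu, Fintype.card_piFinset]
    simp only [Finset.prod_const, Finset.card_univ, Fintype.card_fin]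
    congr 1
    unfold dg
    rw [Set.ncard_eq_toFinset_card']
    refine Finset.card_bij' (fun y _ => (y : X)) (fun y hy => ⟨y, ?_⟩) ?_ ?_ ?_ ?_
    · simp only [Set.mem_toFinset, Set.mem_ofPred_eq] at hy
      exact hy.2
    · intro y hy
      simp only [Finset.mem_filter, Set.mem_toFinset, Set.mem_ofPred_eq] at hy ⊢
      exact ⟨hy.2, y.2⟩
    · intro y hy
      simp only [Finset.mem_filter, Set.mem_toFinset, Set.mem_ofPred_eq] at hy ⊢
      exact ⟨Finset.mem_univ _, hy.1⟩
    · intro y hy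
      rfl
    · intro y hy
      rfl
  · rw [if_neg hu, if_neg hu, Finset.card_univ, ← Nat.card_eq_fintype_card, Nat.card_pi]
    simp [Set.ncard_def, Set.encard, Nat.card]

theorem clo_le (Γ : SimpleGraph X) (c D m w : ℕ) [Fintype (Pk Γ c)] (hw : 1 ≤ w)
    (hS : SpD Γ D m) (K : Finset X) (hK : K.card < m) (hne : K.Nonempty)
    (hd : ∀ u ∈ K, w ≤ (Γ.neighborSet u).ncard) :
    ((Finset.univ.filter (fun π : Pk Γ c => Clo K π)).card : ℝ) ≤
      (((D : ℝ) / w) ^ c) ^ K.card * (Fintype.card (Pk Γ c) : ℝ) := by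
  have hw0 : (0 : ℝ) < w := by exact_mod_cast hw
  rw [card_clo, card_pk]
  push_cast
  have h1 : ∏ u ∈ K, (dg Γ (K : Set X) u : ℝ) ≤ (D : ℝ) ^ K.card := by
    have hs : ∑ u ∈ K, (dg Γ (K : Set X) u : ℝ) ≤ D * K.card := by
      have := hS (K : Set X) (by rwa [Set.ncard_coe_finset])
      rw [ins_eq, Set.ncard_coe_finset] at this
      exact_mod_cast this
    rcases Nat.eq_zero_or_pos D with h0 | h0
    · subst h0
      obtain ⟨u, hu⟩ := hne
      have h2 : ∑ u ∈ K, (dg Γ (K : Set X) u : ℝ) ≤ 0 := by simpa using hs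
      have h3 : (dg Γ (K : Set X) u : ℝ) ≤ ∑ u ∈ K, (dg Γ (K : Set X) u : ℝ) :=
        Finset.single_le_sum (f := fun u => (dg Γ (K : Set X) u : ℝ))
          (fun _ _ => Nat.cast_nonneg _) hu
      have h4 : (dg Γ (K : Set X) u : ℝ) = 0 :=
        le_antisymm (h3.trans h2) (Nat.cast_nonneg _)
      rw [Finset.prod_eq_zero hu h4]
      positivity
    · have hD : (0 : ℝ) < D := by exact_mod_cast h0
      have h2 := prod_le_one' K (fun u => (dg Γ (K : Set X) u : ℝ) / D)
        (fun u _ => by positivity) (by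
          rw [← Finset.sum_div, div_le_iff₀ hD]
          linarith)
      rw [Finset.prod_div_distrib, Finset.prod_const, div_le_one (by positivity)] at h2
      exact h2
  have h2 : (D : ℝ) ^ K.card ≤ ∏ u ∈ K, ((D : ℝ) / w * ((Γ.neighborSet u).ncard : ℝ)) := by
    rw [← Finset.prod_const]
    refine Finset.prod_le_prod (fun _ _ => by positivity) fun u hu => ?_
    have h3 : (w : ℝ) ≤ ((Γ.neighborSet u).ncard : ℝ) := by exact_mod_cast hd u hu
    rw [div_mul_eq_mul_div, le_div_iff₀ hw0]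
    exact mul_le_mul_of_nonneg_left h3 (by positivity)
  have h3 : ∏ u ∈ K, (dg Γ (K : Set X) u : ℝ) ^ c ≤
      (((D : ℝ) / w) ^ c) ^ K.card * ∏ u ∈ K, ((Γ.neighborSet u).ncard : ℝ) ^ c := by
    rw [Finset.prod_pow, Finset.prod_pow, ← pow_mul, mul_comm c, pow_mul, ← mul_pow]
    refine pow_le_pow_left₀ (Finset.prod_nonneg fun _ _ => by positivity) ?_ c
    rw [Finset.prod_mul_distrib, Finset.prod_const] at h2
    exact h1.trans h2
  have h4 : (∏ u : X, if u ∈ K then (dg Γ (K : Set X) u : ℝ) ^ c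
      else ((Γ.neighborSet u).ncard : ℝ) ^ c) =
      (∏ u ∈ K, (dg Γ (K : Set X) u : ℝ) ^ c) *
        ∏ u ∈ Finset.univ.filter (fun u => u ∉ K), ((Γ.neighborSet u).ncard : ℝ) ^ c := by
    rw [Finset.prod_ite]
    congr 1
    refine Finset.prod_congr ?_ fun _ _ => rfl
    ext u
    simp
  have h5 : ∏ u : X, ((Γ.neighborSet u).ncard : ℝ) ^ c =
      (∏ u ∈ K, ((Γ.neighborSet u).ncard : ℝ) ^ c) *
        ∏ u ∈ Finset.univ.filter (fun u => u ∉ K), ((Γ.neighborSet u).ncard : ℝ) ^ c := by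
    rw [← Finset.prod_filter_mul_prod_filter_not Finset.univ (fun u => u ∈ K)]
    congr 1
    refine Finset.prod_congr ?_ fun _ _ => rfl
    ext u
    simp
  rw [h4, h5, ← mul_assoc]
  exact mul_le_mul_of_nonneg_right h3 (Finset.prod_nonneg fun _ _ => by positivity)

/-- The number of the connected sets of size `t + 1`. -/
theorem cnt (hConn : ConnStmt) (Γ : SimpleGraph X) (k t : ℕ)
    (hk : ∀ v, (Γ.neighborSet v).ncard ≤ k) :
    (Finset.univ.filter (fun K : Finset X => K.card = t + 1 ∧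
      (Γ.induce (K : Set X)).Connected)).card ≤ Fintype.card X * k ^ (2 * t) := by
  have h1 : (Finset.univ.filter (fun K : Finset X => K.card = t + 1 ∧
      (Γ.induce (K : Set X)).Connected)) ⊆ (Finset.univ : Finset X).biUnion (fun u =>
      Finset.univ.filter (fun K : Finset X => u ∈ K ∧ K.card = t + 1 ∧
      (Γ.induce (K : Set X)).Connected)) := by
    intro K hK
    rw [Finset.mem_filter] at hK
    obtain ⟨u, hu⟩ : K.Nonempty := by
      rw [← Finset.card_pos, hK.2.1]
      omega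
    rw [Finset.mem_biUnion]
    exact ⟨u, Finset.mem_univ _, Finset.mem_filter.2 ⟨Finset.mem_univ _, hu, hK.2⟩⟩
  refine (Finset.card_le_card h1).trans (Finset.card_biUnion_le.trans ?_)
  have h2 : ∀ u ∈ (Finset.univ : Finset X), (Finset.univ.filter (fun K : Finset X => u ∈ K ∧
      K.card = t + 1 ∧ (Γ.induce (K : Set X)).Connected)).card ≤ k ^ (2 * t) := by
    intro u _
    have h3 := hConn X Γ k t u hk
    rw [Set.ncard_eq_toFinset_card'] at h3
    refine le_trans (Finset.card_le_card ?_) h3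
    intro K hK
    rw [Finset.mem_filter] at hK
    rw [Set.mem_toFinset]
    exact hK.2
  refine (Finset.sum_le_card_nsmul _ _ _ h2).trans (le_of_eq ?_)
  rw [Finset.card_univ, smul_eq_mul]

/-- The weighted number of the small connected sets. -/
theorem wcnt (hConn : ConnStmt) (Γ : SimpleGraph X) (k : ℕ) (hk1 : 1 ≤ k)
    (hk : ∀ v, (Γ.neighborSet v).ncard ≤ k) (ρ : ℝ) (hρ : 0 ≤ ρ)
    (hg : (k : ℝ) ^ 2 * ρ ≤ 1 / 2) (𝒦 : Finset (Finset X))
    (h𝒦 : ∀ K ∈ 𝒦, 2 ≤ K.card ∧ (Γ.induce (K : Set X)).Connected) :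
    ∑ K ∈ 𝒦, ρ ^ K.card ≤ 2 * ((k : ℝ) ^ 2 * ρ) ^ 2 * Fintype.card X := by
  have hk0 : (1 : ℝ) ≤ k := by exact_mod_cast hk1
  have hγ : 0 ≤ (k : ℝ) ^ 2 * ρ := by positivity
  have hm : ∀ K ∈ 𝒦, K.card - 2 ∈ Finset.range (Fintype.card X) := by
    intro K hK
    have h1 := (h𝒦 K hK).1
    have h2 := Finset.card_le_univ K
    rw [Finset.mem_range]
    omega
  rw [← Finset.sum_fiberwise_of_maps_to hm]
  have h1 : ∀ s ∈ Finset.range (Fintype.card X),
      ∑ K ∈ 𝒦.filter (fun K => K.card - 2 = s), ρ ^ K.card ≤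
        (Fintype.card X : ℝ) * (((k : ℝ) ^ 2 * ρ) ^ 2 * (1 / 2) ^ s) := by
    intro s _
    have h2 : ∀ K ∈ 𝒦.filter (fun K => K.card - 2 = s), ρ ^ K.card ≤ ρ ^ (s + 2) := by
      intro K hK
      rw [Finset.mem_filter] at hK
      have h3 := (h𝒦 K hK.1).1
      have h4 : K.card = s + 2 := by omega
      rw [h4]
    have h5 := Finset.sum_le_card_nsmul _ _ _ h2
    have h6 : ((𝒦.filter (fun K => K.card - 2 = s)).card : ℝ) ≤
        (Fintype.card X : ℝ) * (k : ℝ) ^ (2 * (s + 1)) := by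
      have h7 : (𝒦.filter (fun K => K.card - 2 = s)).card ≤
          Fintype.card X * k ^ (2 * (s + 1)) := by
        refine le_trans (Finset.card_le_card ?_) (cnt hConn Γ k (s + 1) hk)
        intro K hK
        rw [Finset.mem_filter] at hK
        have h3 := h𝒦 K hK.1
        rw [Finset.mem_filter]
        exact ⟨Finset.mem_univ _, by omega, h3.2⟩
      exact_mod_cast h7
    have h8 : (k : ℝ) ^ (2 * (s + 1)) * ρ ^ (s + 2) ≤ ((k : ℝ) ^ 2 * ρ) ^ 2 * (1 / 2) ^ s := by
      have h9 : (k : ℝ) ^ (2 * (s + 1)) ≤ (k : ℝ) ^ (2 * (s + 2)) :=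
        pow_le_pow_right₀ hk0 (by omega)
      have h10 : (k : ℝ) ^ (2 * (s + 1)) * ρ ^ (s + 2) ≤ (k : ℝ) ^ (2 * (s + 2)) * ρ ^ (s + 2) :=
        mul_le_mul_of_nonneg_right h9 (by positivity)
      have h11 : (k : ℝ) ^ (2 * (s + 2)) * ρ ^ (s + 2) =
          ((k : ℝ) ^ 2 * ρ) ^ 2 * ((k : ℝ) ^ 2 * ρ) ^ s := by
        rw [pow_mul, ← mul_pow, pow_add, mul_comm]
      rw [h11] at h10
      exact h10.trans (mul_le_mul_of_nonneg_left (pow_le_pow_left₀ hγ hg s) (by positivity))
    rw [nsmul_eq_mul] at h5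
    calc _ ≤ ((𝒦.filter (fun K => K.card - 2 = s)).card : ℝ) * ρ ^ (s + 2) := h5
      _ ≤ (Fintype.card X : ℝ) * (k : ℝ) ^ (2 * (s + 1)) * ρ ^ (s + 2) :=
        mul_le_mul_of_nonneg_right h6 (by positivity)
      _ = (Fintype.card X : ℝ) * ((k : ℝ) ^ (2 * (s + 1)) * ρ ^ (s + 2)) := by ring
      _ ≤ _ := mul_le_mul_of_nonneg_left h8 (by positivity)
  refine (Finset.sum_le_sum h1).trans ?_
  rw [← Finset.mul_sum, ← Finset.mul_sum]
  have h2 := sum_geometric_two_le (Fintype.card X)
  have h3 : ((k : ℝ) ^ 2 * ρ) ^ 2 * ∑ i ∈ Finset.range (Fintype.card X), (1 / 2 : ℝ) ^ i ≤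
      ((k : ℝ) ^ 2 * ρ) ^ 2 * 2 := mul_le_mul_of_nonneg_left h2 (by positivity)
  calc _ ≤ (Fintype.card X : ℝ) * (((k : ℝ) ^ 2 * ρ) ^ 2 * 2) :=
        mul_le_mul_of_nonneg_left h3 (by positivity)
    _ = _ := by ring

/-- The small connected sets of vertices of large degree. -/
noncomputable def KK (Γ : SimpleGraph X) (m w : ℕ) : Finset (Finset X) :=
  Finset.univ.filter (fun K : Finset X => 2 ≤ K.card ∧ K.card < m ∧
    (∀ u ∈ K, w ≤ (Γ.neighborSet u).ncard) ∧ (Γ.induce (K : Set X)).Connected)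

theorem mem_KK {Γ : SimpleGraph X} {m w : ℕ} {K : Finset X} : K ∈ KK Γ m w ↔
    2 ≤ K.card ∧ K.card < m ∧ (∀ u ∈ K, w ≤ (Γ.neighborSet u).ncard) ∧
    (Γ.induce (K : Set X)).Connected := by
  unfold KK
  rw [Finset.mem_filter]
  exact and_iff_right (Finset.mem_univ _)

omit [Fintype X] in
theorem pg_le {Γ : SimpleGraph X} {c : ℕ} (π : Pk Γ c) : pg π ≤ Γ := by
  intro a b h
  rcases h with ⟨i, hi⟩ | ⟨i, hi⟩
  · rw [← hi]
    exact (π a i).2
  · rw [← hi]
    exact ((π b i).2 : Γ.Adj b (π b i : X)).symm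

/-- The components of the graph of the picks. -/
theorem comps (Γ : SimpleGraph X) (c m w : ℕ) (hc : 1 ≤ c) (hm : 1 ≤ m) (π : Pk Γ c) :
    (cc (pg π) : ℝ) ≤ (Fintype.card X : ℝ) / m +
      ({v : X | (Γ.neighborSet v).ncard < w}.ncard : ℝ) +
      (((KK Γ m w).filter (fun K => Clo K π)).card : ℝ) := by
  have hm0 : (0 : ℝ) < m := by exact_mod_cast hm
  unfold cc
  rw [Nat.card_eq_fintype_card, ← Finset.card_univ]
  set A : Finset (pg π).ConnectedComponent :=
    Finset.univ.filter (fun C => m ≤ C.supp.toFinset.card) with hA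
  set B : Finset (pg π).ConnectedComponent :=
    (Finset.univ.filter (fun v : X => (Γ.neighborSet v).ncard < w)).image
      (pg π).connectedComponentMk with hB
  have hAc : (A.card : ℝ) ≤ (Fintype.card X : ℝ) / m := by
    rw [le_div_iff₀ hm0]
    have h1 : (Finset.univ : Finset X).card = ∑ C : (pg π).ConnectedComponent,
        (Finset.univ.filter (fun v : X => (pg π).connectedComponentMk v = C)).card :=
      Finset.card_eq_sum_card_fiberwise (fun v _ => Finset.mem_coe.2 (Finset.mem_univ _))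
    have h2 : ∀ C : (pg π).ConnectedComponent,
        (Finset.univ.filter (fun v : X => (pg π).connectedComponentMk v = C)).card =
          C.supp.toFinset.card := by
      intro C
      congr 1
      ext v
      rw [Set.mem_toFinset, Finset.mem_filter, ConnectedComponent.mem_supp_iff]
      simp
    have h3 : A.card * m ≤ ∑ C ∈ A, C.supp.toFinset.card := by
      rw [← smul_eq_mul]
      exact Finset.card_nsmul_le_sum _ _ _ (fun C hC => (Finset.mem_filter.1 hC).2)
    have h4 : ∑ C ∈ A, C.supp.toFinset.card ≤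
        ∑ C : (pg π).ConnectedComponent, C.supp.toFinset.card :=
      Finset.sum_le_sum_of_subset (Finset.subset_univ _)
    have h5 : A.card * m ≤ Fintype.card X := by
      rw [← Finset.card_univ, h1]
      simp only [h2]
      exact h3.trans h4
    exact_mod_cast h5
  have hBc : (B.card : ℝ) ≤ ({v : X | (Γ.neighborSet v).ncard < w}.ncard : ℝ) := by
    have h1 : B.card ≤ (Finset.univ.filter (fun v : X => (Γ.neighborSet v).ncard < w)).card :=
      Finset.card_image_le
    have h2 : {v : X | (Γ.neighborSet v).ncard < w}.ncard =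
        (Finset.univ.filter (fun v : X => (Γ.neighborSet v).ncard < w)).card := by
      rw [Set.ncard_eq_toFinset_card']
      congr 1
      ext v
      simp
    rw [h2]
    exact_mod_cast h1
  have hR : ((Finset.univ \ (A ∪ B)).card : ℝ) ≤
      (((KK Γ m w).filter (fun K => Clo K π)).card : ℝ) := by
    have h1 : (Finset.univ \ (A ∪ B)).card ≤ ((KK Γ m w).filter (fun K => Clo K π)).card := by
      refine Finset.card_le_card_of_injOn (fun C => C.supp.toFinset) ?_ ?_
      · intro C hC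
        rw [Finset.mem_coe, Finset.mem_sdiff, Finset.mem_union, not_or] at hC
        obtain ⟨-, hCA, hCB⟩ := hC
        have hlt : C.supp.toFinset.card < m := by
          by_contra hcon
          exact hCA (Finset.mem_filter.2 ⟨Finset.mem_univ _, not_lt.1 hcon⟩)
        have hdeg : ∀ u ∈ C.supp.toFinset, w ≤ (Γ.neighborSet u).ncard := by
          intro u hu
          rw [Set.mem_toFinset, ConnectedComponent.mem_supp_iff] at hu
          by_contra hcon
          refine hCB (Finset.mem_image.2 ⟨u, Finset.mem_filter.2 ⟨Finset.mem_univ _, ?_⟩, hu⟩)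
          exact not_le.1 hcon
        have hclo : Clo C.supp.toFinset π := by
          intro u hu i
          rw [Set.mem_toFinset, ConnectedComponent.mem_supp_iff] at hu ⊢
          rw [← hu]
          exact (ConnectedComponent.sound (SimpleGraph.Adj.reachable
            (Or.inl ⟨i, rfl⟩ : (pg π).Adj u (π u i : X)))).symm
        have h2 : 2 ≤ C.supp.toFinset.card := by
          obtain ⟨u, hu⟩ := C.nonempty_supp
          have hu' : u ∈ C.supp.toFinset := Set.mem_toFinset.2 hu
          have hv := hclo u hu' ⟨0, hc⟩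
          have hne : u ≠ (π u ⟨0, hc⟩ : X) := by
            have h3 : Γ.Adj u (π u ⟨0, hc⟩ : X) := (π u ⟨0, hc⟩).2
            exact h3.ne
          exact Finset.one_lt_card.2 ⟨u, hu', _, hv, hne⟩
        have hcon : (Γ.induce ((C.supp.toFinset : Finset X) : Set X)).Connected := by
          rw [Set.coe_toFinset]
          exact C.connected_toSimpleGraph.mono (fun a b h => pg_le π h)
        rw [Finset.mem_coe, Finset.mem_filter]
        exact ⟨mem_KK.2 ⟨h2, hlt, hdeg, hcon⟩, hclo⟩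
      · intro C _ C' _ h
        have h3 : C.supp.toFinset = C'.supp.toFinset := h
        rw [Set.toFinset_inj] at h3
        exact ConnectedComponent.supp_injective h3
    exact_mod_cast h1
  have hU : (Finset.univ : Finset (pg π).ConnectedComponent).card ≤
      A.card + B.card + (Finset.univ \ (A ∪ B)).card := by
    have h1 := Finset.card_sdiff_add_card_eq_card (Finset.subset_univ (A ∪ B))
    have h2 := Finset.card_union_le A B
    omega
  have hU' : ((Finset.univ : Finset (pg π).ConnectedComponent).card : ℝ) ≤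
      (A.card : ℝ) + (B.card : ℝ) + ((Finset.univ \ (A ∪ B)).card : ℝ) := by exact_mod_cast hU
  linarith

theorem pick' (hConn : ConnStmt) (Γ : SimpleGraph X)
    (k c m D w : ℕ) [Fintype (Pk Γ c)] (hc : 1 ≤ c) (hm : 1 ≤ m) (hw : 1 ≤ w)
    (hdeg : ∀ v, 1 ≤ (Γ.neighborSet v).ncard ∧ (Γ.neighborSet v).ncard ≤ k)
    (hS : SpD Γ D m) (hg : (k : ℝ) ^ 2 * ((D : ℝ) / w) ^ c ≤ 1 / 2) :
    ∑ π : Pk Γ c, (cc (pg π) : ℝ) ≤ (Fintype.card (Pk Γ c) : ℝ) *
      (({v : X | (Γ.neighborSet v).ncard < w}.ncard : ℝ) +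
        kap k c m D w * Fintype.card X) := by
  rcases isEmpty_or_nonempty X with hX | ⟨⟨x0⟩⟩
  · have h0 : ∀ π : Pk Γ c, cc (pg π) = 0 := by
      intro π
      unfold cc
      rw [Nat.card_eq_fintype_card, Fintype.card_eq_zero_iff]
      exact ⟨fun C => by obtain ⟨u, -⟩ := C.nonempty_supp; exact hX.elim u⟩
    simp only [h0, Nat.cast_zero, Finset.sum_const_zero]
    unfold kap
    positivity
  have hk1 : 1 ≤ k := (hdeg x0).1.trans (hdeg x0).2
  have hρ : (0 : ℝ) ≤ ((D : ℝ) / w) ^ c := by positivity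
  have h1 : ∑ π : Pk Γ c, (cc (pg π) : ℝ) ≤ ∑ π : Pk Γ c, ((Fintype.card X : ℝ) / m +
      ({v : X | (Γ.neighborSet v).ncard < w}.ncard : ℝ) +
      (((KK Γ m w).filter (fun K => Clo K π)).card : ℝ)) :=
    Finset.sum_le_sum fun π _ => comps Γ c m w hc hm π
  refine h1.trans ?_
  rw [Finset.sum_add_distrib, Finset.sum_const, nsmul_eq_mul, Finset.card_univ]
  have h2 : ∑ π : Pk Γ c, (((KK Γ m w).filter (fun K => Clo K π)).card : ℝ) =
      ∑ K ∈ KK Γ m w, ((Finset.univ.filter (fun π : Pk Γ c => Clo K π)).card : ℝ) := by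
    simp only [Finset.card_filter]
    push_cast
    rw [Finset.sum_comm]
  have h3 : ∑ K ∈ KK Γ m w, ((Finset.univ.filter (fun π : Pk Γ c => Clo K π)).card : ℝ) ≤
      ∑ K ∈ KK Γ m w, (((D : ℝ) / w) ^ c) ^ K.card * (Fintype.card (Pk Γ c) : ℝ) := by
    refine Finset.sum_le_sum fun K hK => ?_
    have hK := mem_KK.1 hK
    refine clo_le Γ c D m w hw hS K hK.2.1 ?_ hK.2.2.1
    rw [← Finset.card_pos]
    have := hK.1
    omega
  have h4 := wcnt hConn Γ k hk1 (fun v => (hdeg v).2) (((D : ℝ) / w) ^ c) hρ hg (KK Γ m w)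
    (fun K hK => ⟨(mem_KK.1 hK).1, (mem_KK.1 hK).2.2.2⟩)
  rw [← Finset.sum_mul] at h3
  have h5 := mul_le_mul_of_nonneg_right h4
    (Nat.cast_nonneg (Fintype.card (Pk Γ c)) : (0 : ℝ) ≤ (Fintype.card (Pk Γ c) : ℝ))
  rw [h2]
  have h6 : (Fintype.card (Pk Γ c) : ℝ) *
      (({v : X | (Γ.neighborSet v).ncard < w}.ncard : ℝ) + kap k c m D w * Fintype.card X) =
      (Fintype.card (Pk Γ c) : ℝ) * ((Fintype.card X : ℝ) / m +
      ({v : X | (Γ.neighborSet v).ncard < w}.ncard : ℝ)) +
      2 * ((k : ℝ) ^ 2 * ((D : ℝ) / w) ^ c) ^ 2 * (Fintype.card X : ℝ) *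
        (Fintype.card (Pk Γ c) : ℝ) := by
    unfold kap
    ring
  rw [h6]
  linarith

/-- PICK. -/
theorem pick (hConn : ConnStmt) : PickStmt := by
  intro X _ _ Γ k c m D w _ hc hm hw hdeg hS hg
  exact pick' hConn Γ k c m D w hc hm hw hdeg hS hg

end Pool.Agent.CG.H81
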